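import Pool.Agent.N938.Bz.Ring

/-!
# Tilings of the sets `X C m` and of benzels by left stones and bones
-/

set_option autoImplicit false

namespace Pool.Agent.N938.Bz

theorem rot_X (C m : ℤ) : rot '' X C m = X C m := by
  ext ⟨i, j, k⟩
  rw [mem_rot]
  simp only [X, Set.mem_ofPred_eq]
  omega

/-- If `U` is invariant under rotation, `S` is disjoint from `U` and from its rotation, then `U` and
the three rotated copies of `S` can be tiled together. -/
theorem tileable_three {T : Set (Set (ℤ × ℤ × ℤ))} (hrot : ∀ t ∈ T, rot '' t ∈ T)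
    {U S : Set (ℤ × ℤ × ℤ)} (hU : rot '' U = U) (h1 : Tileable T U) (h2 : Tileable T S)
    (hd1 : Disjoint U S) (hd2 : Disjoint S (rot '' S)) :
    Tileable T (U ∪ (S ∪ (rot '' S ∪ rot '' (rot '' S)))) := by
  have t1 : Tileable T (rot '' S) := h2.image rot_inj hrot
  have t2 : Tileable T (rot '' (rot '' S)) := t1.image rot_inj hrot
  have d1 : Disjoint U (rot '' S) := by
    rw [← hU]
    exact (Set.disjoint_image_iff rot_inj).2 hd1
  have d2 : Disjoint U (rot '' (rot '' S)) := by
    rw [← hU]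
    exact (Set.disjoint_image_iff rot_inj).2 d1
  have d3 : Disjoint (rot '' S) (rot '' (rot '' S)) := (Set.disjoint_image_iff rot_inj).2 hd2
  have d4 : Disjoint (rot '' (rot '' S)) (rot '' (rot '' (rot '' S))) :=
    (Set.disjoint_image_iff rot_inj).2 d3
  have e : rot '' (rot '' (rot '' S)) = S := by
    ext ⟨i, j, k⟩
    rw [mem_rot, mem_rot, mem_rot]
  rw [e] at d4
  refine h1.union (h2.union (t1.union t2 d3) ?_) ?_
  · rw [Set.disjoint_union_right]
    exact ⟨hd2, d4.symm⟩
  · rw [Set.disjoint_union_right, Set.disjoint_union_right]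
    exact ⟨hd1, d1, d2⟩

/-- The triangle of cells is tiled by left stones and bones. -/
theorem tileable_tri (e : ℤ) :
    Tileable (leftStones ∪ bones)
      {p : ℤ × ℤ × ℤ | p.1 + p.2.1 + p.2.2 = 1 ∧ p.1 ≤ e ∧ p.2.1 ≤ e ∧ p.2.2 ≤ e} := by
  have h1 := tileable_rows (T := leftStones ∪ bones) Set.subset_union_right
    (fun i => 1 - i - e) (fun i => if i ≤ e then (2 * e + i) / 3 else 0)
  have h2 := Tileable.iUnion (T := leftStones ∪ bones)
    (S := fun s : {s : ℤ // 0 ≤ s ∧ s < e} =>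
      ({(e - 3 * s.1 - 1 - 1, e, 2 - e - (e - 3 * s.1 - 1)),
        (e - 3 * s.1 - 1, e - 1, 2 - e - (e - 3 * s.1 - 1)),
        (e - 3 * s.1 - 1, e, 2 - e - (e - 3 * s.1 - 1) - 1)} : Set (ℤ × ℤ × ℤ)))
    (fun s => Tileable.single (Or.inl ⟨_, _, _, by omega, rfl⟩))
    (by
      rintro ⟨s, hs⟩ ⟨t, ht⟩ hst
      have hst' : s ≠ t := fun e => hst (by subst e; rfl)
      rw [Set.disjoint_left]
      rintro ⟨i, j, k⟩ h1 h2
      simp only [Set.mem_insert_iff, Set.mem_singleton_iff, Prod.mk.injEq] at h1 h2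
      omega)
  have h3 := h1.union h2 (by
    rw [Set.disjoint_left]
    rintro ⟨i, j, k⟩ h1 h2
    simp only [Set.mem_iUnion, Set.mem_insert_iff, Set.mem_singleton_iff, Prod.mk.injEq,
      Set.mem_ofPred_eq, Subtype.exists] at h1 h2
    obtain ⟨s, hs, h2⟩ := h2
    rw [if_pos (by omega)] at h1
    omega)
  convert h3 using 1
  ext ⟨i, j, k⟩
  simp only [Set.mem_union, Set.mem_iUnion, Set.mem_insert_iff, Set.mem_singleton_iff,
    Prod.mk.injEq, Set.mem_ofPred_eq, Subtype.exists]
  constructor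
  · rintro ⟨a1, a2, a3, a4⟩
    rw [if_pos a2]
    by_cases hj : j < 1 - i - e + 3 * ((2 * e + i) / 3)
    · left
      omega
    · right
      refine ⟨(e - i - 1) / 3, ⟨by omega, by omega⟩, ?_⟩
      omega
  · rintro (h | ⟨s, hs, h⟩)
    · split_ifs at h <;> omega
    · omega

theorem tileable_X (e : ℕ) (m : ℕ) :
    Tileable (leftStones ∪ bones) (X (e + (m + 1) * (m + 2) / 2 - 1) (m + 1)) := by
  induction m with
  | zero =>
    convert tileable_tri (e : ℤ) using 1
    ext ⟨i, j, k⟩
    simp only [X, Set.mem_ofPred_eq]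
    norm_num
    omega
  | succ m ih =>
    set C : ℤ := (e : ℤ) + ((m : ℤ) + 1) * (m + 2) / 2 - 1 with hCdef
    have hprod : ((m : ℤ) + 1 + 1) * (m + 1 + 2) / 2 = ((m : ℤ) + 1) * (m + 2) / 2 + (m + 2) := by
      have : ((m : ℤ) + 1 + 1) * (m + 1 + 2) = ((m : ℤ) + 1) * (m + 2) + 2 * (m + 2) := by ring
      rw [this]
      omega
    have hge : (m : ℤ) + 1 ≤ ((m : ℤ) + 1) * (m + 2) / 2 := by
      rw [Int.le_ediv_iff_mul_le (by norm_num)]
      nlinarith
    have hC : ((m : ℤ) + 1) - 1 ≤ C := by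
      have : (0 : ℤ) ≤ e := Int.natCast_nonneg e
      omega
    have hm : (1 : ℤ) ≤ (m : ℤ) + 1 := by omega
    have h := tileable_three (T := leftStones ∪ bones)
      (by
        rintro t (ht | ht)
        · exact Or.inl (rot_left ht)
        · exact Or.inr (rot_bones ht))
      (rot_X C (m + 1)) ih (tileable_R Set.subset_union_right hC hm) (disj1 hC hm) (disj2 hC hm)
    rw [← ring_eq hC hm] at h
    convert h using 2
    · push_cast
      rw [hprod, hCdef]
      ring
    · push_cast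
      ring

end Pool.Agent.N938.Bz
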