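import Pool.Agent.N938.Bz.Left

/-!
# Tilings by right stones and bones: translations, rows in the three directions, the step
`X C m → X (C + 2) (m + 1)`
-/

set_option autoImplicit false

namespace Pool.Agent.N938.Bz

/-- Translation by `(x, y, z)`. -/
def tr (x y z : ℤ) (p : ℤ × ℤ × ℤ) : ℤ × ℤ × ℤ := (p.1 + x, p.2.1 + y, p.2.2 + z)

theorem tr_inj (x y z : ℤ) : Function.Injective (tr x y z) := by
  rintro ⟨a, b, c⟩ ⟨d, e, f⟩ h
  simp only [tr, Prod.mk.injEq] at h ⊢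
  omega

theorem mem_tr {x y z : ℤ} {S : Set (ℤ × ℤ × ℤ)} {i j k : ℤ} :
    (i, j, k) ∈ tr x y z '' S ↔ (i - x, j - y, k - z) ∈ S := by
  constructor
  · rintro ⟨⟨a, b, c⟩, h, e⟩
    simp only [tr, Prod.mk.injEq] at e
    obtain ⟨rfl, rfl, rfl⟩ := e
    simpa using h
  · intro h
    exact ⟨_, h, by simp [tr]⟩

theorem tr_bones {x y z : ℤ} (h0 : x + y + z = 0) {t : Set (ℤ × ℤ × ℤ)} (h : t ∈ bones) :
    tr x y z '' t ∈ bones := by
  obtain ⟨⟨a, b, c⟩, d, hc, hd, rfl⟩ := h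
  simp only at hc
  refine ⟨(a + x, b + y, c + z), d, by simp only; omega, hd, ?_⟩
  ext ⟨i, j, k⟩
  rw [mem_tr]
  obtain ⟨d1, d2, d3⟩ := d
  simp only [bone, Set.mem_insert_iff, Set.mem_singleton_iff, Prod.mk_add_mk, Prod.mk.injEq]
  omega

theorem tr_right {x y z : ℤ} (h0 : x + y + z = 0) {t : Set (ℤ × ℤ × ℤ)} (h : t ∈ rightStones) :
    tr x y z '' t ∈ rightStones := by
  obtain ⟨a, b, c, hc, rfl⟩ := h
  refine ⟨a + x, b + y, c + z, by omega, ?_⟩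
  ext ⟨i, j, k⟩
  rw [mem_tr]
  simp only [Set.mem_insert_iff, Set.mem_singleton_iff, Prod.mk.injEq]
  omega

/-- The prototiles of the question: right stones and bones. -/
def RB : Set (Set (ℤ × ℤ × ℤ)) := rightStones ∪ bones

theorem rot_RB : ∀ t ∈ RB, rot '' t ∈ RB := by
  rintro t (ht | ht)
  · exact Or.inl (rot_right ht)
  · exact Or.inr (rot_bones ht)

theorem refl_RB : ∀ t ∈ RB, refl '' t ∈ RB := by
  rintro t (ht | ht)
  · exact Or.inl (refl_right ht)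
  · exact Or.inr (refl_bones ht)

theorem tr_RB {x y z : ℤ} (h0 : x + y + z = 0) : ∀ t ∈ RB, tr x y z '' t ∈ RB := by
  rintro t (ht | ht)
  · exact Or.inl (tr_right h0 ht)
  · exact Or.inr (tr_bones h0 ht)

theorem rowsI (f g : ℤ → ℤ) :
    Tileable RB {p | p.1 + p.2.1 + p.2.2 = 1 ∧ f p.1 ≤ p.2.1 ∧ p.2.1 < f p.1 + 3 * g p.1} :=
  tileable_rows Set.subset_union_right f g

theorem rowsK (f g : ℤ → ℤ) :
    Tileable RB {p | p.1 + p.2.1 + p.2.2 = 1 ∧ f p.2.2 ≤ p.1 ∧ p.1 < f p.2.2 + 3 * g p.2.2} := by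
  have h := (rowsI f g).image rot_inj rot_RB
  convert h using 1
  ext ⟨i, j, k⟩
  rw [mem_rot]
  simp only [Set.mem_ofPred_eq]
  constructor
  · rintro ⟨h1, h2⟩
    exact ⟨by omega, h2⟩
  · rintro ⟨h1, h2⟩
    exact ⟨by omega, h2⟩

theorem rowsJ (f g : ℤ → ℤ) :
    Tileable RB {p | p.1 + p.2.1 + p.2.2 = 1 ∧ f p.2.1 ≤ p.1 ∧ p.1 < f p.2.1 + 3 * g p.2.1} := by
  have h := ((rowsI (fun j => 2 - j - f j - 3 * g j) g).image rot_inj rot_RB).image rot_inj rot_RB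
  convert h using 1
  ext ⟨i, j, k⟩
  rw [mem_rot, mem_rot]
  simp only [Set.mem_ofPred_eq]
  constructor
  · rintro ⟨h1, h2, h3⟩
    exact ⟨by omega, by omega, by omega⟩
  · rintro ⟨h1, h2, h3⟩
    exact ⟨by omega, by omega, by omega⟩

/-- Rows `k = const` of the step. -/
def stepY (C m : ℤ) : Set (ℤ × ℤ × ℤ) :=
  {p | p.1 + p.2.1 + p.2.2 = 1 ∧
    ((p.2.2 = C + 2 ∧ m - 2 * C - 2 ≤ p.1 ∧ p.1 ≤ C - 2 * m + 3) ∨
     (m - 2 * C ≤ p.2.2 ∧ p.2.2 ≤ C + 1 ∧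
      min (min (3 * C - 2 * m + 5 - 2 * p.2.2) C) (p.2.2 + 3 * C - 2 * m + 1) ≤ p.1 ∧
      p.1 ≤ min (min (3 * C - 2 * m + 5 - 2 * p.2.2) C) (p.2.2 + 3 * C - 2 * m + 1) + 2))}

/-- Rows `i = const` of the step. -/
def stepG (C m : ℤ) : Set (ℤ × ℤ × ℤ) :=
  {p | p.1 + p.2.1 + p.2.2 = 1 ∧ C - m + 2 ≤ p.1 ∧ p.1 ≤ C + 2 ∧
    min (3 * C - 2 * m + 5 - 2 * p.1) C ≤ p.2.1 ∧
    p.2.1 ≤ min (3 * C - 2 * m + 5 - 2 * p.1) C + 2}

/-- Rows `j = const` of the step. -/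
def stepP (C m : ℤ) : Set (ℤ × ℤ × ℤ) :=
  {p | p.1 + p.2.1 + p.2.2 = 1 ∧ C + 1 ≤ p.2.1 ∧ p.2.1 ≤ C + 2 ∧
    2 * m - 2 * C - 4 ≤ p.1 ∧ p.1 ≤ C - m + 1}

/-- The right stones of the step. -/
def stepS (C m : ℤ) : Set (ℤ × ℤ × ℤ) :=
  {p | p.1 + p.2.1 + p.2.2 = 1 ∧
    ((p.2.1 - p.1 = 3 * C - 2 * m + 4 ∧ C - m + 2 ≤ p.2.1 ∧ p.2.1 ≤ C) ∨
     (p.2.1 - p.1 = 3 * C - 2 * m + 5 ∧ C - m + 2 ≤ p.2.1 ∧ p.2.1 ≤ C) ∨
     (p.2.1 - p.1 = 3 * C - 2 * m + 6 ∧ C - m + 3 ≤ p.2.1 ∧ p.2.1 ≤ C + 1))}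

theorem tileable_stepY {C m : ℤ} (hC : m - 1 ≤ C) : Tileable RB (stepY C m) := by
  have h := rowsK (fun k => if k = C + 2 then m - 2 * C - 2 else
      min (min (3 * C - 2 * m + 5 - 2 * k) C) (k + 3 * C - 2 * m + 1))
    (fun k => if k = C + 2 then C - m + 2 else if m - 2 * C ≤ k ∧ k ≤ C + 1 then 1 else 0)
  convert h using 1
  ext ⟨i, j, k⟩
  simp only [stepY, Set.mem_ofPred_eq]
  split_ifs <;> omega

theorem tileable_stepG (C m : ℤ) : Tileable RB (stepG C m) := by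
  have h := rowsI (fun i => min (3 * C - 2 * m + 5 - 2 * i) C)
    (fun i => if C - m + 2 ≤ i ∧ i ≤ C + 2 then 1 else 0)
  convert h using 1
  ext ⟨i, j, k⟩
  simp only [stepG, Set.mem_ofPred_eq]
  split_ifs <;> omega

theorem tileable_stepP {C m : ℤ} (hC : m - 1 ≤ C) : Tileable RB (stepP C m) := by
  have h := rowsJ (fun _ => 2 * m - 2 * C - 4)
    (fun j => if C + 1 ≤ j ∧ j ≤ C + 2 then C - m + 2 else 0)
  convert h using 1
  ext ⟨i, j, k⟩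
  simp only [stepP, Set.mem_ofPred_eq]
  split_ifs <;> omega

theorem tileable_stepS (C m : ℤ) : Tileable RB (stepS C m) := by
  have h := Tileable.iUnion (T := RB)
    (S := fun s : {s : ℤ // 0 ≤ s ∧ s < m - 1} =>
      ({(s.1 - 2 * C + m - 3 + 1, s.1 + C - m + 2, C + 1 - 2 * s.1),
        (s.1 - 2 * C + m - 3, s.1 + C - m + 2 + 1, C + 1 - 2 * s.1),
        (s.1 - 2 * C + m - 3, s.1 + C - m + 2, C + 1 - 2 * s.1 + 1)} : Set (ℤ × ℤ × ℤ)))
    (fun s => Tileable.single (Or.inl ⟨_, _, _, by omega, rfl⟩))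
    (by
      rintro ⟨s, hs⟩ ⟨t, ht⟩ hst
      have hst' : s ≠ t := fun e => hst (by subst e; rfl)
      rw [Set.disjoint_left]
      rintro ⟨i, j, k⟩ h1 h2
      simp only [Set.mem_insert_iff, Set.mem_singleton_iff, Prod.mk.injEq] at h1 h2
      omega)
  convert h using 1
  ext ⟨i, j, k⟩
  simp only [stepS, Set.mem_iUnion, Set.mem_insert_iff, Set.mem_singleton_iff,
    Prod.mk.injEq, Set.mem_ofPred_eq, Subtype.exists]
  constructor
  · rintro ⟨h0, h | h | h⟩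
    · exact ⟨j - C + m - 2, ⟨by omega, by omega⟩, by omega⟩
    · exact ⟨j - C + m - 2, ⟨by omega, by omega⟩, by omega⟩
    · exact ⟨j - C + m - 3, ⟨by omega, by omega⟩, by omega⟩
  · rintro ⟨s, hs, h⟩
    omega

theorem step_eq {C m : ℤ} (hC : m - 1 ≤ C) (hm : 1 ≤ m) :
    X (C + 2) (m + 1) = tr (-1) 0 1 '' X C m ∪ (stepY C m ∪ (stepG C m ∪ (stepP C m ∪
      stepS C m))) := by
  ext ⟨i, j, k⟩
  simp only [Set.mem_union, mem_tr]
  simp only [X, stepY, stepG, stepP, stepS, Set.mem_ofPred_eq]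
  constructor
  · rintro ⟨h0, h1, h2, h3, h4, h5, h6⟩
    obtain rfl : k = 1 - i - j := by omega
    omega
  · rintro (h | h | h | h | h) <;> omega

/-- The step. -/
theorem tileable_step {C m : ℤ} (hC : m - 1 ≤ C) (hm : 1 ≤ m) (h : Tileable RB (X C m)) :
    Tileable RB (X (C + 2) (m + 1)) := by
  rw [step_eq hC hm]
  refine (h.image (tr_inj _ _ _) (tr_RB (by norm_num))).union ((tileable_stepY hC).union
    ((tileable_stepG C m).union ((tileable_stepP hC).union (tileable_stepS C m) ?_) ?_) ?_) ?_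
  · rw [Set.disjoint_left]
    rintro ⟨i, j, k⟩ h1 h2
    simp only [stepP, stepS, Set.mem_ofPred_eq] at h1 h2
    omega
  · rw [Set.disjoint_left]
    rintro ⟨i, j, k⟩ h1 h2
    simp only [Set.mem_union] at h2
    simp only [stepG, stepP, stepS, Set.mem_ofPred_eq] at h1 h2
    omega
  · rw [Set.disjoint_left]
    rintro ⟨i, j, k⟩ h1 h2
    simp only [Set.mem_union] at h2
    simp only [stepY, stepG, stepP, stepS, Set.mem_ofPred_eq] at h1 h2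
    omega
  · rw [Set.disjoint_left]
    rintro ⟨i, j, k⟩ h1 h2
    rw [mem_tr] at h1
    simp only [Set.mem_union] at h2
    simp only [X, stepY, stepG, stepP, stepS, Set.mem_ofPred_eq] at h1 h2
    omega

end Pool.Agent.N938.Bz
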