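import Pool.Agent.N938.Bz.Right

/-!
# Tilings by right stones and bones: right stones alone, and the step
`B(a, b) → B(a + 3, b + 3)` for `a + b ≡ 2 mod 3`
-/

set_option autoImplicit false

namespace Pool.Agent.N938.Bz

/-- The benzel. -/
def Ben (a b : ℤ) : Set (ℤ × ℤ × ℤ) :=
  {p | p.1 + p.2.1 + p.2.2 = 1 ∧ -(a - 1) ≤ p.2.1 - p.1 ∧ p.2.1 - p.1 ≤ b - 1 ∧
    -(a - 1) ≤ p.2.2 - p.2.1 ∧ p.2.2 - p.2.1 ≤ b - 1 ∧
    -(a - 1) ≤ p.1 - p.2.2 ∧ p.1 - p.2.2 ≤ b - 1}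

/-- For `a + b ≡ 1 mod 3` right stones suffice. -/
theorem tileable_stones {a b : ℤ} (h1 : (a + b) % 3 = 1) : Tileable RB (Ben a b) := by
  have h := Tileable.iUnion (T := RB)
    (S := fun s : {s : ℤ × ℤ × ℤ // s.1 + s.2.1 + s.2.2 = 0 ∧ (s.2.1 - s.1 - b + 2) % 3 = 0 ∧
        -(a - 2) ≤ s.2.1 - s.1 ∧ s.2.1 - s.1 ≤ b - 2 ∧
        -(a - 2) ≤ s.2.2 - s.2.1 ∧ s.2.2 - s.2.1 ≤ b - 2 ∧
        -(a - 2) ≤ s.1 - s.2.2 ∧ s.1 - s.2.2 ≤ b - 2} =>
      ({(s.1.1 + 1, s.1.2.1, s.1.2.2), (s.1.1, s.1.2.1 + 1, s.1.2.2),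
        (s.1.1, s.1.2.1, s.1.2.2 + 1)} : Set (ℤ × ℤ × ℤ)))
    (fun s => Tileable.single (Or.inl ⟨_, _, _, s.2.1, rfl⟩))
    (by
      rintro ⟨⟨s1, s2, s3⟩, hs⟩ ⟨⟨t1, t2, t3⟩, ht⟩ hst
      have hst' : ¬ (s1 = t1 ∧ s2 = t2 ∧ s3 = t3) := by
        rintro ⟨rfl, rfl, rfl⟩
        exact hst rfl
      rw [Set.disjoint_left]
      rintro ⟨i, j, k⟩ h1 h2
      simp only [Set.mem_insert_iff, Set.mem_singleton_iff, Prod.mk.injEq] at h1 h2 hs ht
      omega)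
  convert h using 1
  ext ⟨i, j, k⟩
  simp only [Ben, Set.mem_iUnion, Set.mem_insert_iff, Set.mem_singleton_iff,
    Prod.mk.injEq, Set.mem_ofPred_eq, Subtype.exists, Prod.exists]
  constructor
  · rintro ⟨h0, h2, h3, h4, h5, h6, h7⟩
    rcases (by omega : (j - i - b) % 3 = 0 ∨ (j - i - b) % 3 = 1 ∨ (j - i - b) % 3 = 2) with
      hr | hr | hr
    · exact ⟨i - 1, j, k, by omega, by omega⟩
    · exact ⟨i, j, k - 1, by omega, by omega⟩
    · exact ⟨i, j - 1, k, by omega, by omega⟩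
  · rintro ⟨s1, s2, s3, hs, h⟩
    omega

/-- The jagged triangle. -/
theorem tileable_J (M : ℤ) :
    Tileable RB {p : ℤ × ℤ × ℤ | p.1 + p.2.1 + p.2.2 = 1 ∧ p.2.1 - p.1 ≤ M ∧ p.2.2 - p.2.1 ≤ M ∧
      p.1 - p.2.2 ≤ M} := by
  have h := tileable_stones (a := 2 * M) (b := M + 1) (by omega)
  convert h using 1
  ext ⟨i, j, k⟩
  simp only [Ben, Set.mem_ofPred_eq]
  omega

/-- `X (p + 2 D) (p + D + 1)`. -/
theorem tileable_XD (p D : ℕ) : Tileable RB (X (p + 2 * D) (p + D + 1)) := by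
  induction D with
  | zero =>
    convert tileable_J (p : ℤ) using 1
    ext ⟨i, j, k⟩
    simp only [X, Set.mem_ofPred_eq]
    push_cast
    omega
  | succ D ih =>
    have h := tileable_step (C := p + 2 * D) (m := p + D + 1) (by omega) (by omega) ih
    convert h using 2
    · push_cast
      ring
    · push_cast
      ring

/-- Rows `i = const` of the second step. -/
def twoG (b n : ℤ) : Set (ℤ × ℤ × ℤ) :=
  {p | p.1 + p.2.1 + p.2.2 = 1 ∧ -n ≤ p.1 ∧ p.1 ≤ n - 2 - b ∧ p.1 + b ≤ p.2.1 ∧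
    p.2.1 ≤ p.1 + b + 2}

/-- Rows `j = const` of the second step. -/
def twoP (a b n : ℤ) : Set (ℤ × ℤ × ℤ) :=
  {p | p.1 + p.2.1 + p.2.2 = 1 ∧ -n ≤ p.2.1 ∧ p.2.1 ≤ n - 1 ∧
    min (min ((b - 1 - p.2.1) / 2) (a - 2 - 2 * p.2.1)) (p.2.1 + a) ≤ p.1 ∧
    p.1 ≤ min (min ((b - 1 - p.2.1) / 2) (a - 2 - 2 * p.2.1)) (p.2.1 + a) + 2}

/-- Rows `k = const` of the second step. -/
def twoY (a b n : ℤ) : Set (ℤ × ℤ × ℤ) :=
  {p | p.1 + p.2.1 + p.2.2 = 1 ∧ -n ≤ p.2.2 ∧ p.2.2 ≤ b - 2 * n ∧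
    -a - 1 - 2 * p.2.2 ≤ p.1 ∧ p.1 ≤ -a + 1 - 2 * p.2.2}

/-- The right stone of the second step. -/
def twoS (b n : ℤ) : Set (ℤ × ℤ × ℤ) :=
  {(n - b - 1 + 1, n, b + 1 - 2 * n), (n - b - 1, n + 1, b + 1 - 2 * n),
    (n - b - 1, n, b + 1 - 2 * n + 1)}

theorem tileable_twoG (b n : ℤ) : Tileable RB (twoG b n) := by
  have h := rowsI (fun i => i + b) (fun i => if -n ≤ i ∧ i ≤ n - 2 - b then 1 else 0)
  convert h using 1
  ext ⟨i, j, k⟩
  simp only [twoG, Set.mem_ofPred_eq]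
  split_ifs <;> omega

theorem tileable_twoP (a b n : ℤ) : Tileable RB (twoP a b n) := by
  have h := rowsJ (fun j => min (min ((b - 1 - j) / 2) (a - 2 - 2 * j)) (j + a))
    (fun j => if -n ≤ j ∧ j ≤ n - 1 then 1 else 0)
  convert h using 1
  ext ⟨i, j, k⟩
  simp only [twoP, Set.mem_ofPred_eq]
  split_ifs <;> omega

theorem tileable_twoY (a b n : ℤ) : Tileable RB (twoY a b n) := by
  have h := rowsK (fun k => -a - 1 - 2 * k) (fun k => if -n ≤ k ∧ k ≤ b - 2 * n then 1 else 0)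
  convert h using 1
  ext ⟨i, j, k⟩
  simp only [twoY, Set.mem_ofPred_eq]
  split_ifs <;> omega

theorem tileable_twoS (b n : ℤ) : Tileable RB (twoS b n) :=
  Tileable.single (Or.inl ⟨_, _, _, by omega, rfl⟩)

theorem two_eq {a b n : ℤ} (hn : a + b = 3 * n - 1) (ha : a ≤ 2 * b - 1) (hb : b ≤ 2 * a - 1) :
    Ben (a + 3) (b + 3) = tr (-1) (-1) 2 '' Ben a b ∪ (twoG b n ∪ (twoP a b n ∪ (twoY a b n ∪
      twoS b n))) := by
  ext ⟨i, j, k⟩
  simp only [Set.mem_union, mem_tr]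
  simp only [Ben, twoG, twoP, twoY, twoS, Set.mem_ofPred_eq, Set.mem_insert_iff,
    Set.mem_singleton_iff, Prod.mk.injEq]
  constructor
  · rintro ⟨h0, h1, h2, h3, h4, h5, h6⟩
    obtain rfl : k = 1 - i - j := by omega
    omega
  · rintro (h | h | h | h | h) <;> omega

/-- The second step. -/
theorem tileable_two {a b n : ℤ} (hn : a + b = 3 * n - 1) (ha : a ≤ 2 * b - 1)
    (hb : b ≤ 2 * a - 1) (h : Tileable RB (Ben a b)) : Tileable RB (Ben (a + 3) (b + 3)) := by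
  rw [two_eq hn ha hb]
  refine (h.image (tr_inj _ _ _) (tr_RB (by norm_num))).union ((tileable_twoG b n).union
    ((tileable_twoP a b n).union ((tileable_twoY a b n).union (tileable_twoS b n) ?_) ?_) ?_) ?_
  · rw [Set.disjoint_left]
    rintro ⟨i, j, k⟩ h1 h2
    simp only [twoY, twoS, Set.mem_ofPred_eq, Set.mem_insert_iff,
      Set.mem_singleton_iff, Prod.mk.injEq] at h1 h2
    omega
  · rw [Set.disjoint_left]
    rintro ⟨i, j, k⟩ h1 h2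
    simp only [Set.mem_union] at h2
    simp only [twoP, twoY, twoS, Set.mem_ofPred_eq, Set.mem_insert_iff,
      Set.mem_singleton_iff, Prod.mk.injEq] at h1 h2
    omega
  · rw [Set.disjoint_left]
    rintro ⟨i, j, k⟩ h1 h2
    simp only [Set.mem_union] at h2
    simp only [twoG, twoP, twoY, twoS, Set.mem_ofPred_eq, Set.mem_insert_iff,
      Set.mem_singleton_iff, Prod.mk.injEq] at h1 h2
    omega
  · rw [Set.disjoint_left]
    rintro ⟨i, j, k⟩ h1 h2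
    rw [mem_tr] at h1
    simp only [Set.mem_union] at h2
    simp only [Ben, twoG, twoP, twoY, twoS, Set.mem_ofPred_eq, Set.mem_insert_iff,
      Set.mem_singleton_iff, Prod.mk.injEq] at h1 h2
    omega

end Pool.Agent.N938.Bz
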