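import Pool.Agent.N938.Bz.Right2

/-!
# Tilings by right stones and bones: the sets `X C m` and the benzels
-/

set_option autoImplicit false

namespace Pool.Agent.N938.Bz

theorem ring_RB {C m : ℤ} (hC : m - 1 ≤ C) (hm : 1 ≤ m) (h : Tileable RB (X C m)) :
    Tileable RB (X (C + m + 1) (m + 1)) := by
  rw [ring_eq hC hm]
  exact tileable_three rot_RB (rot_X C m) h (tileable_R Set.subset_union_right hC hm)
    (disj1 hC hm) (disj2 hC hm)

/-- `X C m` is tiled by right stones and bones if `m - 1 ≤ C ≤ m (m + 1) / 2 - 1`. -/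
theorem tileable_X_RB (m : ℕ) : ∀ C : ℤ, (m : ℤ) ≤ C → 2 * C + 2 ≤ ((m : ℤ) + 1) * (m + 2) →
    Tileable RB (X C (m + 1)) := by
  induction m with
  | zero =>
    intro C h1 h2
    have : C = 0 := by push_cast at *; omega
    subst this
    have := tileable_XD 0 0
    simpa using this
  | succ m ih =>
    intro C h1 h2
    push_cast at *
    rcases le_or_gt C (2 * (m + 1)) with h | h
    · obtain ⟨p, hp⟩ := Int.eq_ofNat_of_zero_le (show (0 : ℤ) ≤ 2 * (m + 1) - C by omega)
      obtain ⟨D, hD⟩ := Int.eq_ofNat_of_zero_le (show (0 : ℤ) ≤ C - (m + 1) by omega)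
      have := tileable_XD p D
      convert this using 2
      · omega
      · omega
    · have h3 := ih (C - (m + 1) - 1) (by omega) (by nlinarith)
      have h4 := ring_RB (C := C - (m + 1) - 1) (m := m + 1) (by omega) (by omega) h3
      convert h4 using 2
      ring

/-- The corners. -/
theorem ben_of_X {C m : ℤ} (hm : 1 ≤ m) (hC : m - 1 ≤ C) (hX : Tileable RB (X C m)) :
    Tileable RB (Ben (3 * C + 3 - m) (3 * C + 3 - 2 * m)) := by
  have hKt := rowsI (fun i => i - 3 * C - 2 + m)
    (fun i => if C + 1 ≤ i then 2 * C + 2 - m - i else 0)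
  have h := tileable_three (T := RB) rot_RB (rot_X C m) hX hKt
    (by
      rw [Set.disjoint_left]
      rintro ⟨i, j, k⟩ h1 h2
      simp only [X, Set.mem_ofPred_eq] at h1 h2
      rw [if_neg (by omega)] at h2
      omega)
    (by
      rw [Set.disjoint_left]
      rintro ⟨i, j, k⟩ h1 h2
      rw [mem_rot] at h2
      simp only [Set.mem_ofPred_eq] at h1 h2
      split_ifs at h1 h2 <;> omega)
  convert h using 1
  ext ⟨i, j, k⟩
  simp only [Set.mem_union, mem_rot]
  simp only [X, Ben, Set.mem_ofPred_eq]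
  split_ifs <;> omega

/-- `a + b ≡ 0 mod 3`, `a ≥ b`. -/
theorem tileable_zero {a b : ℤ} (hba : b ≤ a) (h2 : 2 ≤ b) (hab : a ≤ 2 * b)
    (h3 : (a + b) % 3 = 0) (hI : a + b ≤ 3 * (a - b) ^ 2) : Tileable RB (Ben a b) := by
  obtain ⟨m, hm⟩ := Int.eq_ofNat_of_zero_le (sub_nonneg.2 hba)
  obtain rfl : a = b + m := by omega
  rcases m with _ | m
  · exfalso
    simp at hI
    omega
  · push_cast at *
    have hsq : 3 * (b + (m + 1) - b) ^ 2 = 3 * (((m : ℤ) + 1) * (m + 2)) - 3 * (m + 1) := by ring
    rw [hsq] at hI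
    set C : ℤ := (b + 2 * (m + 1) - 3) / 3 with hC
    have hC3 : 3 * C = b + 2 * (m + 1) - 3 := by omega
    have hX := tileable_X_RB m C (by omega) (by omega)
    have := ben_of_X (C := C) (m := m + 1) (by omega) (by omega) hX
    convert this using 2 <;> omega

/-- `a + b ≡ 2 mod 3`, `a ≥ b`. -/
theorem tileable_mod_two (t : ℕ) : ∀ a b : ℤ, b ≤ a → 1 ≤ b → 2 * b - 1 - a = 3 * t →
    Tileable RB (Ben a b) := by
  induction t with
  | zero =>
    intro a b hba hb ht
    have h := tileable_J (b - 1)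
    convert h using 1
    ext ⟨i, j, k⟩
    simp only [Ben, Set.mem_ofPred_eq]
    push_cast at ht
    omega
  | succ t ih =>
    intro a b hba hb ht
    push_cast at ht
    have h1 := ih (a - 3) (b - 3) (by omega) (by omega) (by omega)
    have h2 := tileable_two (a := a - 3) (b := b - 3) (n := (a + b - 5) / 3) (by omega) (by omega)
      (by omega) h1
    simpa using h2

theorem refl_Ben (a b : ℤ) : refl '' Ben a b = Ben b a := by
  ext ⟨i, j, k⟩
  rw [mem_refl]
  simp only [Ben, Set.mem_ofPred_eq]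
  omega

theorem tileable_swap {a b : ℤ} (h : Tileable RB (Ben a b)) : Tileable RB (Ben b a) := by
  rw [← refl_Ben]
  exact h.image refl_inj refl_RB

/-- All cases. -/
theorem tileable_Ben {a b : ℤ} (ha : 2 ≤ a) (hab : a ≤ 2 * b) (hb : 2 ≤ b) (hba : b ≤ 2 * a)
    (h : (a + b) % 3 = 0 → a + b ≤ 3 * (a - b) ^ 2) : Tileable RB (Ben a b) := by
  rcases (by omega : (a + b) % 3 = 0 ∨ (a + b) % 3 = 1 ∨ (a + b) % 3 = 2) with h0 | h1 | h2
  · rcases le_total b a with hle | hle
    · exact tileable_zero hle hb hab h0 (h h0)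
    · refine tileable_swap (tileable_zero hle ha hba (by omega) ?_)
      have e : (b - a) ^ 2 = (a - b) ^ 2 := by ring
      rw [e]
      have := h h0
      omega
  · exact tileable_stones h1
  · rcases le_total b a with hle | hle
    · obtain ⟨t, ht⟩ := Int.eq_ofNat_of_zero_le (show (0 : ℤ) ≤ (2 * b - 1 - a) / 3 by omega)
      exact tileable_mod_two t a b hle (by omega) (by omega)
    · obtain ⟨t, ht⟩ := Int.eq_ofNat_of_zero_le (show (0 : ℤ) ≤ (2 * a - 1 - b) / 3 by omega)
      exact tileable_swap (tileable_mod_two t b a hle (by omega) (by omega))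

end Pool.Agent.N938.Bz
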