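import Pool.Agent.N938.Bz.Tile

/-!
# The nested rings

`X C m` is the set of the cells `(i, j, k)`, `i + j + k = 1`, with `i, j, k ≤ C` and
`j - i, k - j, i - k ≤ 3 C - 2 m + 2`. The set `X (C + m + 1) (m + 1)` is the disjoint union of `X C m`
and three rotated copies of a set `R C m` whose rows have lengths divisible by three.
-/

set_option autoImplicit false

namespace Pool.Agent.N938.Bz

/-- A triangle of cells whose corners are cut off. -/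
def X (C m : ℤ) : Set (ℤ × ℤ × ℤ) :=
  {p | p.1 + p.2.1 + p.2.2 = 1 ∧ p.1 ≤ C ∧ p.2.1 ≤ C ∧ p.2.2 ≤ C ∧
    p.2.1 - p.1 ≤ 3 * C - 2 * m + 2 ∧ p.2.2 - p.2.1 ≤ 3 * C - 2 * m + 2 ∧
    p.1 - p.2.2 ≤ 3 * C - 2 * m + 2}

/-- One side of the ring. -/
def R (C m : ℤ) : Set (ℤ × ℤ × ℤ) :=
  {p | p.1 + p.2.1 + p.2.2 = 1 ∧
    ((C + 2 ≤ p.1 ∧ p.1 ≤ C + m + 1 ∧ m + 2 - 2 * p.1 ≤ p.2.1 ∧ p.2.1 ≤ 3 * C + m + 4 - 2 * p.1) ∨
     (p.1 = C + 1 ∧ m - 2 * C - 1 ≤ p.2.1 ∧ p.2.1 ≤ C + m + 1) ∨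
     (p.1 ≤ C ∧ 3 * C - 2 * m + 4 - 2 * p.1 ≤ p.2.1 ∧ p.2.1 ≤ p.1 + m))}

theorem tileable_R {T : Set (Set (ℤ × ℤ × ℤ))} (hT : bones ⊆ T) {C m : ℤ} (hC : m - 1 ≤ C)
    (hm : 1 ≤ m) : Tileable T (R C m) := by
  have h := tileable_rows hT
    (fun i => if C + 2 ≤ i then m + 2 - 2 * i else if i = C + 1 then m - 2 * C - 1
      else 3 * C - 2 * m + 4 - 2 * i)
    (fun i => if C + m + 2 ≤ i then 0 else if C + 1 ≤ i then C + 1 else i + m - C - 1)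
  convert h using 1
  ext ⟨i, j, k⟩
  simp only [R, Set.mem_ofPred_eq]
  split_ifs <;> omega

theorem ring_eq {C m : ℤ} (hC : m - 1 ≤ C) (hm : 1 ≤ m) :
    X (C + m + 1) (m + 1) = X C m ∪ (R C m ∪ (rot '' R C m ∪ rot '' (rot '' R C m))) := by
  ext ⟨i, j, k⟩
  simp only [Set.mem_union, mem_rot]
  simp only [X, R, Set.mem_ofPred_eq]
  constructor
  · rintro ⟨h0, h1, h2, h3, h4, h5, h6⟩
    obtain rfl : k = 1 - i - j := by omega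
    omega
  · rintro (h | h | h | h) <;> omega

theorem disj1 {C m : ℤ} (hC : m - 1 ≤ C) (hm : 1 ≤ m) : Disjoint (X C m) (R C m) := by
  rw [Set.disjoint_left]
  rintro ⟨i, j, k⟩ h1 h2
  simp only [X, R, Set.mem_ofPred_eq] at h1 h2
  omega

theorem disj2 {C m : ℤ} (hC : m - 1 ≤ C) (hm : 1 ≤ m) : Disjoint (R C m) (rot '' R C m) := by
  rw [Set.disjoint_left]
  rintro ⟨i, j, k⟩ h1 h2
  rw [mem_rot] at h2
  simp only [R, Set.mem_ofPred_eq] at h1 h2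
  omega

end Pool.Agent.N938.Bz
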