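import Mathlib

/-!
# Tilings of sets of cells by families of prototiles

Cells are triples of integers. A set `S` is `Tileable T` if it is the disjoint union of members of `T`.
-/

set_option autoImplicit false

namespace Pool.Agent.N938.Bz

/-- `S` is a disjoint union of members of `T`. -/
def Tileable (T : Set (Set (ℤ × ℤ × ℤ))) (S : Set (ℤ × ℤ × ℤ)) : Prop :=
  ∃ P : Set (Set (ℤ × ℤ × ℤ)), P ⊆ T ∧ P.PairwiseDisjoint id ∧ ⋃₀ P = S

theorem Tileable.empty (T : Set (Set (ℤ × ℤ × ℤ))) : Tileable T ∅ :=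
  ⟨∅, by simp, by simp, by simp⟩

theorem Tileable.single {T : Set (Set (ℤ × ℤ × ℤ))} {t : Set (ℤ × ℤ × ℤ)} (h : t ∈ T) :
    Tileable T t :=
  ⟨{t}, by simpa using h, by simp, by simp⟩

theorem Tileable.iUnion {ι : Type*} {T : Set (Set (ℤ × ℤ × ℤ))} {S : ι → Set (ℤ × ℤ × ℤ)}
    (h : ∀ i, Tileable T (S i)) (hd : ∀ i j, i ≠ j → Disjoint (S i) (S j)) :
    Tileable T (⋃ i, S i) := by
  choose P hP1 hP2 hP3 using h
  refine ⟨⋃ i, P i, Set.iUnion_subset hP1, ?_, ?_⟩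
  · intro s hs t ht hst
    simp only [Set.mem_iUnion] at hs ht
    obtain ⟨i, hi⟩ := hs
    obtain ⟨j, hj⟩ := ht
    by_cases hij : i = j
    · subst hij
      exact hP2 i hi hj hst
    · have h1 : s ⊆ S i := by
        rw [← hP3 i]
        exact Set.subset_sUnion_of_mem hi
      have h2 : t ⊆ S j := by
        rw [← hP3 j]
        exact Set.subset_sUnion_of_mem hj
      exact (hd i j hij).mono h1 h2
  · rw [Set.sUnion_iUnion]
    exact Set.iUnion_congr hP3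

theorem Tileable.union {T : Set (Set (ℤ × ℤ × ℤ))} {S S' : Set (ℤ × ℤ × ℤ)}
    (h : Tileable T S) (h' : Tileable T S') (hd : Disjoint S S') : Tileable T (S ∪ S') := by
  have := Tileable.iUnion (T := T) (S := fun b : Bool => cond b S S')
    (by rintro (_ | _) <;> simpa) (by
      rintro (_ | _) (_ | _) h <;> simp_all [hd.symm])
  rwa [← Set.union_eq_iUnion] at this

theorem Tileable.image {T T' : Set (Set (ℤ × ℤ × ℤ))} {S : Set (ℤ × ℤ × ℤ)}
    {φ : ℤ × ℤ × ℤ → ℤ × ℤ × ℤ} (hφ : Function.Injective φ) (hT : ∀ t ∈ T, φ '' t ∈ T')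
    (h : Tileable T S) : Tileable T' (φ '' S) := by
  obtain ⟨P, h1, h2, h3⟩ := h
  refine ⟨(fun t => φ '' t) '' P, ?_, ?_, ?_⟩
  · rintro _ ⟨t, ht, rfl⟩
    exact hT t (h1 ht)
  · rintro _ ⟨s, hs, rfl⟩ _ ⟨t, ht, rfl⟩ hst
    have hne : s ≠ t := fun e => hst (by rw [e])
    exact (Set.disjoint_image_iff hφ).2 (h2 hs ht hne)
  · rw [← h3, Set.sUnion_image, Set.sUnion_eq_biUnion, Set.image_iUnion₂]

/-- The rotation `(i, j, k) ↦ (j, k, i)`. -/
def rot (p : ℤ × ℤ × ℤ) : ℤ × ℤ × ℤ := (p.2.1, p.2.2, p.1)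

/-- The reflection `(i, j, k) ↦ (j, i, k)`. -/
def refl (p : ℤ × ℤ × ℤ) : ℤ × ℤ × ℤ := (p.2.1, p.1, p.2.2)

theorem rot_inj : Function.Injective rot := by
  rintro ⟨a, b, c⟩ ⟨d, e, f⟩ h
  simp only [rot, Prod.mk.injEq] at h ⊢
  tauto

theorem refl_inj : Function.Injective refl := by
  rintro ⟨a, b, c⟩ ⟨d, e, f⟩ h
  simp only [refl, Prod.mk.injEq] at h ⊢
  tauto

theorem mem_rot {S : Set (ℤ × ℤ × ℤ)} {i j k : ℤ} : (i, j, k) ∈ rot '' S ↔ (k, i, j) ∈ S := by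
  constructor
  · rintro ⟨⟨a, b, c⟩, h, e⟩
    simp only [rot, Prod.mk.injEq] at e
    obtain ⟨rfl, rfl, rfl⟩ := e
    exact h
  · intro h
    exact ⟨(k, i, j), h, rfl⟩

theorem mem_refl {S : Set (ℤ × ℤ × ℤ)} {i j k : ℤ} : (i, j, k) ∈ refl '' S ↔ (j, i, k) ∈ S := by
  constructor
  · rintro ⟨⟨a, b, c⟩, h, e⟩
    simp only [refl, Prod.mk.injEq] at e
    obtain ⟨rfl, rfl, rfl⟩ := e
    exact h
  · intro h
    exact ⟨(j, i, k), h, rfl⟩

/-- The bone `{c, c + d, c + 2 d}`. -/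
def bone (c d : ℤ × ℤ × ℤ) : Set (ℤ × ℤ × ℤ) := {c, c + d, c + d + d}

/-- The three directions of the bones. -/
def dirs : Set (ℤ × ℤ × ℤ) := {(1, -1, 0), (0, 1, -1), (-1, 0, 1)}

/-- All bones: three cells in a straight row. -/
def bones : Set (Set (ℤ × ℤ × ℤ)) :=
  {t | ∃ c d : ℤ × ℤ × ℤ, c.1 + c.2.1 + c.2.2 = 1 ∧ d ∈ dirs ∧ t = bone c d}

/-- Left stones. -/
def leftStones : Set (Set (ℤ × ℤ × ℤ)) :=
  {t | ∃ i j k : ℤ, i + j + k = 2 ∧ t = {(i - 1, j, k), (i, j - 1, k), (i, j, k - 1)}}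

/-- Right stones. -/
def rightStones : Set (Set (ℤ × ℤ × ℤ)) :=
  {t | ∃ i j k : ℤ, i + j + k = 0 ∧ t = {(i + 1, j, k), (i, j + 1, k), (i, j, k + 1)}}

theorem rot_bones {t : Set (ℤ × ℤ × ℤ)} (h : t ∈ bones) : rot '' t ∈ bones := by
  obtain ⟨⟨a, b, c⟩, d, hc, hd, rfl⟩ := h
  simp only at hc
  refine ⟨(b, c, a), rot d, by simp only; omega, ?_, ?_⟩
  · simp only [dirs, Set.mem_insert_iff, Set.mem_singleton_iff] at hd ⊢
    rcases hd with rfl | rfl | rfl <;> simp [rot]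
  · ext ⟨i, j, k⟩
    rw [mem_rot]
    obtain ⟨d1, d2, d3⟩ := d
    simp only [bone, rot, Set.mem_insert_iff, Set.mem_singleton_iff, Prod.mk_add_mk, Prod.mk.injEq]
    tauto

theorem refl_bones {t : Set (ℤ × ℤ × ℤ)} (h : t ∈ bones) : refl '' t ∈ bones := by
  obtain ⟨⟨a, b, c⟩, d, hc, hd, rfl⟩ := h
  simp only at hc
  simp only [dirs, Set.mem_insert_iff, Set.mem_singleton_iff] at hd
  rcases hd with rfl | rfl | rfl
  · refine ⟨(b - 2, a + 2, c), (1, -1, 0), by simp only; omega, by simp [dirs], ?_⟩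
    ext ⟨i, j, k⟩
    rw [mem_refl]
    simp only [bone, Set.mem_insert_iff, Set.mem_singleton_iff, Prod.mk_add_mk, Prod.mk.injEq]
    omega
  · refine ⟨(b + 2, a, c - 2), (-1, 0, 1), by simp only; omega, by simp [dirs], ?_⟩
    ext ⟨i, j, k⟩
    rw [mem_refl]
    simp only [bone, Set.mem_insert_iff, Set.mem_singleton_iff, Prod.mk_add_mk, Prod.mk.injEq]
    omega
  · refine ⟨(b, a - 2, c + 2), (0, 1, -1), by simp only; omega, by simp [dirs], ?_⟩
    ext ⟨i, j, k⟩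
    rw [mem_refl]
    simp only [bone, Set.mem_insert_iff, Set.mem_singleton_iff, Prod.mk_add_mk, Prod.mk.injEq]
    omega

theorem rot_left {t : Set (ℤ × ℤ × ℤ)} (h : t ∈ leftStones) : rot '' t ∈ leftStones := by
  obtain ⟨a, b, c, hc, rfl⟩ := h
  refine ⟨b, c, a, by omega, ?_⟩
  ext ⟨i, j, k⟩
  rw [mem_rot]
  simp only [Set.mem_insert_iff, Set.mem_singleton_iff, Prod.mk.injEq]
  tauto

theorem refl_left {t : Set (ℤ × ℤ × ℤ)} (h : t ∈ leftStones) : refl '' t ∈ leftStones := by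
  obtain ⟨a, b, c, hc, rfl⟩ := h
  refine ⟨b, a, c, by omega, ?_⟩
  ext ⟨i, j, k⟩
  rw [mem_refl]
  simp only [Set.mem_insert_iff, Set.mem_singleton_iff, Prod.mk.injEq]
  tauto

theorem rot_right {t : Set (ℤ × ℤ × ℤ)} (h : t ∈ rightStones) : rot '' t ∈ rightStones := by
  obtain ⟨a, b, c, hc, rfl⟩ := h
  refine ⟨b, c, a, by omega, ?_⟩
  ext ⟨i, j, k⟩
  rw [mem_rot]
  simp only [Set.mem_insert_iff, Set.mem_singleton_iff, Prod.mk.injEq]
  tauto

theorem refl_right {t : Set (ℤ × ℤ × ℤ)} (h : t ∈ rightStones) : refl '' t ∈ rightStones := by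
  obtain ⟨a, b, c, hc, rfl⟩ := h
  refine ⟨b, a, c, by omega, ?_⟩
  ext ⟨i, j, k⟩
  rw [mem_refl]
  simp only [Set.mem_insert_iff, Set.mem_singleton_iff, Prod.mk.injEq]
  tauto

/-- One row: the cells `(x, j, 1 - x - j)` with `f ≤ j < f + 3 g`. -/
theorem tileable_row {T : Set (Set (ℤ × ℤ × ℤ))} (hT : bones ⊆ T) (x f g : ℤ) :
    Tileable T {p | p.1 = x ∧ p.1 + p.2.1 + p.2.2 = 1 ∧ f ≤ p.2.1 ∧ p.2.1 < f + 3 * g} := by
  have h := Tileable.iUnion (T := T)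
    (S := fun t : {t : ℤ // 0 ≤ t ∧ t < g} =>
      bone (x, f + 3 * t.1, 1 - x - f - 3 * t.1) (0, 1, -1))
    (fun t => Tileable.single (hT ⟨_, _, by simp only; omega, by simp [dirs], rfl⟩))
    (by
      rintro ⟨s, hs⟩ ⟨t, ht⟩ hst
      have hst' : s ≠ t := fun e => hst (by subst e; rfl)
      rw [Set.disjoint_left]
      rintro ⟨i, j, k⟩ h1 h2
      simp only [bone, Set.mem_insert_iff, Set.mem_singleton_iff, Prod.mk_add_mk,
        Prod.mk.injEq] at h1 h2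
      omega)
  convert h using 1
  ext ⟨i, j, k⟩
  simp only [Set.mem_setOf_eq, Set.mem_iUnion, bone, Set.mem_insert_iff, Set.mem_singleton_iff,
    Prod.mk_add_mk, Prod.mk.injEq, Subtype.exists]
  constructor
  · rintro ⟨h1, h2, h3, h4⟩
    refine ⟨(j - f) / 3, ⟨by omega, by omega⟩, ?_⟩
    omega
  · rintro ⟨t, ht, h⟩
    omega

/-- A region whose rows `i = const` are intervals of lengths divisible by three. -/
theorem tileable_rows {T : Set (Set (ℤ × ℤ × ℤ))} (hT : bones ⊆ T) (f g : ℤ → ℤ) :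
    Tileable T {p | p.1 + p.2.1 + p.2.2 = 1 ∧ f p.1 ≤ p.2.1 ∧ p.2.1 < f p.1 + 3 * g p.1} := by
  have h := Tileable.iUnion (T := T)
    (S := fun x : ℤ => {p : ℤ × ℤ × ℤ | p.1 = x ∧ p.1 + p.2.1 + p.2.2 = 1 ∧ f x ≤ p.2.1 ∧
      p.2.1 < f x + 3 * g x})
    (fun x => tileable_row hT x (f x) (g x))
    (by
      intro x y hxy
      rw [Set.disjoint_left]
      rintro p h1 h2
      exact hxy (h1.1.symm.trans h2.1))
  convert h using 1
  ext p
  simp only [Set.mem_setOf_eq, Set.mem_iUnion]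
  constructor
  · rintro h
    exact ⟨p.1, rfl, h⟩
  · rintro ⟨x, rfl, h⟩
    exact h

end Pool.Agent.N938.Bz
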